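import Pool.Agent.H980R3.Slit.C14
import Pool.Agent.H31C.Stubs

/-! Bridge to the interface `H31C.S_C`. -/

namespace Pool.Agent.H980R3.Slit

open Pool.Agent.H988R2.Perc Relation

theorem eqvGen_le_gen {α : Type*} {E F : α → α → Prop} (key : ∀ x y, E x y → EqvGen F x y) {x y : α}
    (h : EqvGen E x y) : EqvGen F x y := by
  induction h with
  | rel x y h => exact key x y h
  | refl x => exact EqvGen.refl _
  | symm x y _ ih => exact ih.symm
  | trans x y z _ _ i1 i2 => exact i1.trans _ _ _ i2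

theorem conn3_iff31 (a b : ℕ) (R R1 R2 : St)
    (h1 : ∀ x y, R1.rel x y → x = y ∨ (x ≤ a ∧ y ≤ a)) :
    H31C.conn3 a b R R1 R2 ↔ conn3 a b R R1 R2 := by
  unfold conn3 H31C.conn3
  constructor
  · refine eqvGen_le_gen ?_
    rintro x y (h | h | ⟨x', y', rfl, rfl, h⟩)
    · exact EqvGen.rel _ _ (Or.inl h)
    · rcases h1 x y h with k | ⟨k1, k2⟩
      · subst k; exact EqvGen.refl _
      · exact EqvGen.rel _ _ (Or.inr (Or.inl ⟨h, k1, k2⟩))
    · rcases R2.odd _ _ h with k | ⟨k1, k2⟩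
      · subst k; exact EqvGen.refl _
      · refine EqvGen.rel _ _ (Or.inr (Or.inr ⟨by omega, by omega, ?_⟩))
        have e1 : a + 1 + x' - (a + 1) = x' := by omega
        have e2 : a + 1 + y' - (a + 1) = y' := by omega
        rw [e1, e2]; exact h
  · refine fun h => h.mono ?_
    rintro x y (h | ⟨h, k1, k2⟩ | ⟨k1, k2, h⟩)
    · exact Or.inl h
    · exact Or.inr (Or.inl h)
    · exact Or.inr (Or.inr ⟨x - (a+1), y - (a+1), by omega, by omega, h⟩)

theorem tri_eq31 (a b : ℕ) (f g h : St →₀ ℂ)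
    (h1 : ∀ R ∈ g.support, ∀ x y, R.rel x y → x = y ∨ (x ≤ a ∧ y ≤ a)) :
    H31C.tri a b f g h = pair3 a b f g h := by
  classical
  unfold pair3 H31C.tri
  refine Finsupp.sum_congr fun R _ => Finsupp.sum_congr fun R1 hR1 => Finsupp.sum_congr fun R2 _ => ?_
  have := conn3_iff31 a b R R1 R2 (h1 R1 hR1)
  by_cases hc : conn3 a b R R1 R2
  · rw [if_pos hc, if_pos (this.2 hc)]
  · rw [if_neg hc, if_neg (fun h => hc (this.1 h))]

theorem cross_eq31 (a b : ℕ) : H31C.Cross a b = SlitCross a b := by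
  have e : ∀ ω x y, H31C.SlitAdj a (a+b+1) ω x y ↔ SlitAdj a b ω x y := by
    intro ω x y
    unfold SlitAdj H31C.SlitAdj
    push_cast
    constructor
    · rintro ⟨h, h1, h2, h3, h4, h5⟩
      refine ⟨h, ⟨h1, h2⟩, ⟨h3, h4⟩, ?_⟩
      rintro ⟨k1, k2, k3⟩
      apply h5
      refine ⟨k1, k2, ?_⟩
      omega
    · rintro ⟨h, ⟨h1, h2⟩, ⟨h3, h4⟩, h5⟩
      refine ⟨h, h1, h2, h3, h4, ?_⟩
      rintro ⟨k1, k2, k3⟩
      apply h5
      refine ⟨k1, k2, ?_⟩
      rcases h with ⟨e, _⟩ | ⟨e, _⟩ | ⟨e, _⟩ | ⟨e, _⟩ <;> rw [e] at k3 ⊢ <;> dsimp only at k3 ⊢ <;> omega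
  have e2 : ∀ ω, H31C.SlitAdj a (a+b+1) ω = SlitAdj a b ω := by
    intro ω; funext x y; exact propext (e ω x y)
  unfold SlitCross H31C.Cross
  ext ω
  simp only [Set.mem_ofPred_eq, e2]
  push_cast
  rfl

theorem inv_on (n : ℕ) : H31C.inv (H31C.on n) = H31C.on n := by
  unfold H31C.inv H31C.on
  rw [List.map_replicate, inv_one]

theorem on_app (a b : ℕ) : H31C.on a ++ 1 :: (H31C.on b ++ [0]) = List.replicate (a+b+1) 1 ++ [0] := by
  unfold H31C.on
  have : List.replicate (a+b+1) (1:ℂ) = List.replicate a 1 ++ 1 :: List.replicate b 1 := by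
    rw [show a + b + 1 = a + (b + 1) by ring, List.replicate_add, List.replicate_succ]
  rw [this]
  simp

/-- block C of the interface -/
theorem S_C_of (h : S_final) : H31C.S_C := by
  intro a b ha hb
  have hL : Odd (a + b + 1) := (ha.add_odd hb).add_one
  have n0 := psi1_mass_ne _ hL
  have n1 := psi1_mass_ne a ha
  have n2 := psi1_mass_ne b hb
  have e := h a b ha hb
  have hla : (H31C.on a).length = a := by simp [H31C.on]
  have hlb : (H31C.on b).length = b := by simp [H31C.on]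
  have hT : H31C.TT (H31C.on a) 1 (H31C.on b) =
      mass (psi1 (a+b+1)) * mass (psi1 a) * mass (psi1 b) := by
    unfold H31C.TT
    rw [on_app, inv_on, inv_on]
    rfl
  have hG : H31C.GR (H31C.on a) 1 (H31C.on b) = pair3 a b (psi1 (a+b+1)) (psi1 a) (psi1 b) := by
    unfold H31C.GR
    rw [hla, hlb, on_app, inv_on, inv_on, tri_eq31 a b]
    · rfl
    · intro R hR x y hxy
      have hlen : (List.replicate a (1:ℂ) ++ [0]).length = a + 1 := by simp
      have := Psi_supp (List.replicate a 1 ++ [0]) (by rw [hlen]; exact ha.add_one) R hR x y hxy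
      rw [hlen] at this
      rcases this with k | ⟨k1, k2⟩
      · exact Or.inl k
      · exact Or.inr ⟨by omega, by omega⟩
  rw [hT, hG, cross_eq31, e]
  field_simp

/-- block T of the interface -/
theorem S_T_of : H31C.S_T := by
  intro a b ha hb
  have hL : Odd (a + b + 1) := (ha.add_odd hb).add_one
  have hT : H31C.TT (H31C.on a) 1 (H31C.on b) =
      mass (psi1 (a+b+1)) * mass (psi1 a) * mass (psi1 b) := by
    unfold H31C.TT
    rw [on_app, inv_on, inv_on]
    rfl
  rw [hT]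
  exact mul_ne_zero (mul_ne_zero (psi1_mass_ne _ hL) (psi1_mass_ne a ha)) (psi1_mass_ne b hb)

end Pool.Agent.H980R3.Slit
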