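import Pool.Agent.H980R3.Slit.Stubs

/-! C02 (helper267): the lower state is the connectivity in `E0`. -/

namespace Pool.Agent.H980R3.Slit

open Pool.Agent.H988R2.Perc Relation

theorem C02_edge (a b M : ℕ) (ω : Conf) (p p' : ℤ × ℤ) :
    T22.EP (a + b + 1) (-(2 * (M : ℤ))) 0 ω p p' ↔ E0 a b M ω p p' := by
  unfold T22.EP E0 T22.GPart GP
  push_cast
  exact Iff.rfl

theorem t_C02 : S_C02 := by
  intro a b M ω x y ha hb hx hy hxL hyL
  have hL : Odd (a + b + 1) := (ha.add_odd hb).add_one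
  rw [T22.past_iff (a + b + 1) hL M ω x y hx hy hxL hyL]
  exact T21.eqvGen_congr (C02_edge a b M ω) _ _

end Pool.Agent.H980R3.Slit
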