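import Pool.Agent.H980R3.Slit.Stubs

/-! C03: the upper right state. -/

namespace Pool.Agent.H980R3.Slit

open Pool.Agent.H988R2.Perc Filter Topology MeasureTheory Relation

theorem t_C03 : S_C03 := by
  intro a b M ω x y ha hb hx hy hxb hyb
  have ha1 : a % 2 = 1 := Nat.odd_iff.mp ha
  rw [X_sem b hb M (oFutR a ω M) x y hx hy hxb hyb]
  constructor
  · intro h
    have := T22.eqvGen_map (F := E2 a b M ω)
      (fun p : ℕ × ℕ => (((p.1 : ℤ) + (a + 1), 2 * M - (p.2 : ℤ)) : ℤ × ℤ)) ?_ h
    · simpa using this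
    · rintro p p' (⟨i, k, h1, h2, h3, h4, h5⟩ | ⟨h1, h2⟩)
      · apply Relation.EqvGen.symm
        refine Relation.EqvGen.rel _ _ (Or.inl ⟨(i : ℤ) + (a + 1), 2 * M - 1 - k, by omega,
          by omega, by omega, by omega, h4, ?_⟩)
        rcases h5 with ⟨e1, e2, e3⟩ | ⟨e1, e2, e3⟩
        · right
          subst e2 e3
          refine ⟨by omega, ?_, ?_⟩
          · apply Prod.ext <;> simp <;> omega
          · apply Prod.ext <;> simp <;> omega
        · left
          subst e2 e3
          refine ⟨by omega, ?_, ?_⟩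
          · apply Prod.ext <;> simp <;> omega
          · apply Prod.ext <;> simp <;> omega
      · exact Relation.EqvGen.rel _ _ (Or.inr ⟨by simp [h1]; omega, by simp [h2]; omega⟩)
  · intro h
    have := T22.eqvGen_map
      (F := fun p p' => StripAdj b (2*M) (oFutR a ω M) p p' ∨ (p.1 = b ∧ p'.1 = b))
      (fun p : ℤ × ℤ => (((p.1 - (a + 1)).toNat, (2 * M - p.2).toNat) : ℕ × ℕ)) ?_ h
    · have e : (2 * (M : ℤ) - 0).toNat = 2 * M := by omega
      have e1 : ((x : ℤ) + (a + 1) - (a + 1)).toNat = x := by omega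
      have e2 : ((y : ℤ) + (a + 1) - (a + 1)).toNat = y := by omega
      simp only [e, e1, e2] at this
      exact this
    · rintro p p' (⟨i, r, h1, h2, h3, h4, h5, h6⟩ | ⟨h1, h2⟩)
      · apply Relation.EqvGen.symm
        refine Relation.EqvGen.rel _ _ (Or.inl ⟨(i - (a + 1)).toNat, (2 * M - 1 - r).toNat,
          by omega, by omega, by omega, ?_, ?_⟩)
        · unfold oFutR
          have e1 : (((i - (a + 1)).toNat : ℕ) : ℤ) + (a + 1) = i := by omega
          have e2 : 2 * (M : ℤ) - 1 - (((2 * (M : ℤ) - 1 - r).toNat : ℕ) : ℤ) = r := by omega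
          rw [e1, e2]; exact h5
        · rcases h6 with ⟨e1, e2, e3⟩ | ⟨e1, e2, e3⟩
          · right
            subst e2 e3
            refine ⟨by omega, ?_, ?_⟩
            · apply Prod.ext <;> simp <;> omega
            · apply Prod.ext <;> simp <;> omega
          · left
            subst e2 e3
            refine ⟨by omega, ?_, ?_⟩
            · apply Prod.ext <;> simp <;> omega
            · apply Prod.ext <;> simp <;> omega
      · exact Relation.EqvGen.rel _ _ (Or.inr ⟨by simp [h1], by simp [h2]⟩)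

end Pool.Agent.H980R3.Slit
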