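import Pool.Agent.H980R3.Slit.Stubs

/-! C04: the states of the window event give a connection in the window graph (helper20). -/

namespace Pool.Agent.H980R3.Slit

open Pool.Agent.H988R2.Perc Filter Topology MeasureTheory Relation

theorem c04_mono {α : Type*} {E E' : α → α → Prop} (h : ∀ a b, E a b → E' a b) {x y : α}
    (hxy : EqvGen E x y) : EqvGen E' x y := by
  induction hxy with
  | rel a b h' => exact EqvGen.rel _ _ (h _ _ h')
  | refl a => exact EqvGen.refl _
  | symm a b _ ih => exact EqvGen.symm _ _ ih
  | trans a b d _ _ ih1 ih2 => exact EqvGen.trans _ _ _ ih1 ih2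

theorem t_C04 (h1 : S_C01) (h2 : S_C02) (h3 : S_C03) : S_C04 := by
  intro a b M ω ha hb hw
  have haL : Odd (a + b + 1) := (ha.add_odd hb).add_one
  have ha2 : a % 2 = 1 := Nat.odd_iff.mp ha
  have key : ∀ x y : ℕ, EqvGen (J3 a (X (a+b+1) (actBit (oPast ω M)) M)
      (X a (actBit (oFut ω M)) M) (X b (actBit (oFutR a ω M)) M)) x y →
      x = y ∨ EqvGen (EE a b M ω) ((x : ℤ), 0) ((y : ℤ), 0) := by
    intro x y hxy
    induction hxy with
    | rel x y h =>
      by_cases hxy : x = y
      · exact Or.inl hxy
      right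
      rcases h with h | ⟨h, hx, hy⟩ | ⟨hx, hy, h⟩
      · have ho : x % 2 = 1 ∧ y % 2 = 1 := by
          rcases (X (a+b+1) (actBit (oPast ω M)) M).odd _ _ h with h' | h'
          · exact absurd h' hxy
          · exact h'
        have hs : x ≤ a + b + 1 ∧ y ≤ a + b + 1 := by
          rcases X_supp (a+b+1) haL M _ _ _ h with h' | h'
          · exact absurd h' hxy
          · exact h'
        exact c04_mono (fun _ _ h => Or.inl h)
          ((h2 a b M ω x y ha hb ho.1 ho.2 hs.1 hs.2).1 h)
      · have ho : x % 2 = 1 ∧ y % 2 = 1 := by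
          rcases (X a (actBit (oFut ω M)) M).odd _ _ h with h' | h'
          · exact absurd h' hxy
          · exact h'
        exact c04_mono (fun _ _ h => Or.inr (Or.inl h))
          ((h1 a M ω x y ha ho.1 ho.2 hx hy).1 h)
      · have hne : x - (a+1) ≠ y - (a+1) := by omega
        have ho : (x - (a+1)) % 2 = 1 ∧ (y - (a+1)) % 2 = 1 := by
          rcases (X b (actBit (oFutR a ω M)) M).odd _ _ h with h' | h'
          · exact absurd h' hne
          · exact h'
        have hs : x - (a+1) ≤ b ∧ y - (a+1) ≤ b := by
          rcases X_supp b hb M _ _ _ h with h' | h'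
          · exact absurd h' hne
          · exact h'
        have h4 := (h3 a b M ω (x - (a+1)) (y - (a+1)) ha hb ho.1 ho.2 hs.1 hs.2).1 h
        have e1 : ((x - (a+1) : ℕ) : ℤ) + ((a : ℤ) + 1) = x := by omega
        have e2 : ((y - (a+1) : ℕ) : ℤ) + ((a : ℤ) + 1) = y := by omega
        rw [e1, e2] at h4
        exact c04_mono (fun _ _ h => Or.inr (Or.inr h)) h4
    | refl x => exact Or.inl rfl
    | symm x y _ ih =>
      rcases ih with h | h
      · exact Or.inl h.symm
      · exact Or.inr (h.symm _ _)
    | trans x y z _ _ ih1 ih2 =>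
      rcases ih1 with h | h
      · subst h; exact ih2
      · rcases ih2 with k | k
        · subst k; exact Or.inr h
        · exact Or.inr (h.trans _ _ _ k)
  have hw' := key a (a+b+1) hw
  rcases hw' with h | h
  · omega
  · have e : (((a + b + 1 : ℕ) : ℤ)) = (a : ℤ) + b + 1 := by push_cast; ring
    rw [e] at h
    exact h

end Pool.Agent.H980R3.Slit
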