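import Pool.Agent.H980R3.Slit.Stubs

/-! C06: a window crossing gives a crossing of the slit strip (helper733). -/

namespace Pool.Agent.H980R3.Slit

open Pool.Agent.H988R2.Perc Relation

theorem C06.gp_gadj {a b M : ℕ} {ω : Conf} {p p' : ℤ × ℤ} (h : EE a b M ω p p') :
    (GAdj (a+b+1) M ω p p' ∧ ((p.1 + p.2) % 2 = 1 ∧ (p'.1 + p'.2) % 2 = 1 ∧ 0 ≤ p.1 ∧ 0 ≤ p'.1 ∧
      p.1 ≤ a + b + 1 ∧ p'.1 ≤ a + b + 1) ∧
      ¬ (0 ≤ p.2 ∧ 0 ≤ p'.2 ∧ ((p.1 = a ∧ p'.1 = a + 1) ∨ (p.1 = a + 1 ∧ p'.1 = a)))) ∨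
    (p.1 = a ∧ p'.1 = a ∧ 0 ≤ p.2 ∧ 0 ≤ p'.2) ∨ (p.1 = a + b + 1 ∧ p'.1 = a + b + 1) := by
  rcases h with (h | h) | (h | h) | (h | h)
  · left
    obtain ⟨i, r, h1, h2, h3, h4, h5, h6⟩ := h
    refine ⟨⟨i, r, h1, by push_cast; omega, h3, by omega, h5, h6⟩, ?_⟩
    rcases h6 with ⟨h6, rfl, rfl⟩ | ⟨h6, rfl, rfl⟩
    · dsimp only
      refine ⟨⟨by omega, by omega, by omega, by omega, by omega, by omega⟩, by omega⟩
    · dsimp only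
      refine ⟨⟨by omega, by omega, by omega, by omega, by omega, by omega⟩, by omega⟩
  · exact Or.inr (Or.inr h)
  · left
    obtain ⟨i, r, h1, h2, h3, h4, h5, h6⟩ := h
    refine ⟨⟨i, r, h1, by push_cast; omega, by omega, by omega, h5, h6⟩, ?_⟩
    rcases h6 with ⟨h6, rfl, rfl⟩ | ⟨h6, rfl, rfl⟩
    · dsimp only
      refine ⟨⟨by omega, by omega, by omega, by omega, by omega, by omega⟩, by omega⟩
    · dsimp only
      refine ⟨⟨by omega, by omega, by omega, by omega, by omega, by omega⟩, by omega⟩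
  · exact Or.inr (Or.inl h)
  · left
    obtain ⟨i, r, h1, h2, h3, h4, h5, h6⟩ := h
    refine ⟨⟨i, r, by omega, by push_cast; omega, by omega, by omega, h5, h6⟩, ?_⟩
    rcases h6 with ⟨h6, rfl, rfl⟩ | ⟨h6, rfl, rfl⟩
    · dsimp only
      refine ⟨⟨by omega, by omega, by omega, by omega, by omega, by omega⟩, by omega⟩
    · dsimp only
      refine ⟨⟨by omega, by omega, by omega, by omega, by omega, by omega⟩, by omega⟩
  · exact Or.inr (Or.inr h)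

theorem C06.toZ_sum (p : ℤ × ℤ) (h : (p.1 + p.2) % 2 = 1) :
    (T22.toZ p).1 + (T22.toZ p).2 = p.2 + 1 := by
  unfold T22.toZ; dsimp only; omega

theorem t_C06 : S_C06 := by
  intro a b M ω ha hb h
  by_contra hc
  let P : ℤ × ℤ → Prop := fun p => (p.1 = a ∧ 0 ≤ p.2) ∨ ((p.1 + p.2) % 2 = 1 ∧
    ∃ x : ℤ × ℤ, x.1 - x.2 = a ∧ 1 ≤ x.1 + x.2 ∧ ReflTransGen (SlitAdj a b ω) x (T22.toZ p))
  have wired : ∀ p : ℤ × ℤ, p.1 = a + b + 1 → ¬ P p := by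
    rintro p hp (⟨h1, h2⟩ | ⟨h1, x, hx1, hx2, h2⟩)
    · omega
    · exact hc ⟨x, T22.toZ p, hx1, hx2, by rw [T22.toZ_diff p h1, hp], h2⟩
  have step : ∀ p p' : ℤ × ℤ, OpenAdj ω (T22.toZ p) (T22.toZ p') →
      ((p.1 + p.2) % 2 = 1 ∧ (p'.1 + p'.2) % 2 = 1 ∧ 0 ≤ p.1 ∧ 0 ≤ p'.1 ∧
      p.1 ≤ a + b + 1 ∧ p'.1 ≤ a + b + 1) →
      ¬ (0 ≤ p.2 ∧ 0 ≤ p'.2 ∧ ((p.1 = a ∧ p'.1 = a + 1) ∨ (p.1 = a + 1 ∧ p'.1 = a))) →
      P p → P p' := by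
    rintro p p' ho ⟨f1, f2, f3, f4, f5, f6⟩ hs hP
    have d1 := T22.toZ_diff p f1
    have d2 := T22.toZ_diff p' f2
    have e1 := C06.toZ_sum p f1
    have e2 := C06.toZ_sum p' f2
    have hadj : SlitAdj a b ω (T22.toZ p) (T22.toZ p') := by
      refine ⟨ho, by omega, by omega, ?_⟩
      rw [d1, d2, e1, e2]
      rintro ⟨g1, g2, g3⟩
      exact hs ⟨by omega, by omega, g3⟩
    right
    refine ⟨f2, ?_⟩
    rcases hP with ⟨h1, h2⟩ | ⟨h1, x, hx1, hx2, h2⟩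
    · exact ⟨T22.toZ p, by omega, by omega, ReflTransGen.single hadj⟩
    · exact ⟨x, hx1, hx2, h2.tail hadj⟩
  have key : P ((a : ℤ), 0) ↔ P ((a : ℤ) + b + 1, 0) := by
    refine T22.eqvGen_iff P ?_ h
    intro p p' h1
    rcases C06.gp_gadj h1 with ⟨g1, g2, g3⟩ | ⟨g1, g2, g3, g4⟩ | ⟨g1, g2⟩
    · have ho := T22.gadj_open g1
      obtain ⟨f1, f2, f3, f4, f5, f6⟩ := g2
      exact ⟨step p p' ho ⟨f1, f2, f3, f4, f5, f6⟩ g3,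
        step p' p (T22.openAdj_symm ho) ⟨f2, f1, f4, f3, f6, f5⟩ (by omega)⟩
    · exact ⟨fun _ => Or.inl ⟨g2, g4⟩, fun _ => Or.inl ⟨g1, g3⟩⟩
    · exact ⟨fun h => absurd h (wired p g1), fun h => absurd h (wired p' g2)⟩
  have hP1 : P ((a : ℤ), 0) := Or.inl ⟨rfl, le_refl _⟩
  exact wired _ rfl (key.1 hP1)

end Pool.Agent.H980R3.Slit
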