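import Pool.Agent.H980R3.Slit.Stubs

set_option autoImplicit false

/-! Task C09 (helper338): the trilinear pairing of sums of point masses. -/

namespace Pool.Agent.H980R3.Slit

open Pool.Agent.H988R2.Perc

open Classical in
theorem t_C09 : S_C09 := by
  intro a b α β γ P0 P1 P2 R0 R1 R2
  have key : ∀ f g h : St →₀ ℂ, pair3 a b f g h =
      Finsupp.linearCombination ℂ (fun R => Finsupp.linearCombination ℂ
        (fun R1 => Finsupp.linearCombination ℂ
          (fun R2 => if conn3 a b R R1 R2 then (1:ℂ) else 0) h) g) f := by
    intro f g h
    unfold pair3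
    rw [Finsupp.linearCombination_apply]
    apply Finsupp.sum_congr
    intro x _
    rw [Finsupp.linearCombination_apply, Finsupp.sum, Finsupp.sum, Finset.smul_sum]
    apply Finset.sum_congr rfl
    intro y _
    rw [Finsupp.linearCombination_apply, Finsupp.sum, Finsupp.sum, Finset.smul_sum,
      Finset.smul_sum]
    apply Finset.sum_congr rfl
    intro w _
    simp only [smul_eq_mul]
    ring
  rw [key, map_smul, map_sum]
  simp only [Finsupp.linearCombination_single, one_smul, map_smul, map_sum, smul_eq_mul]
  simp only [Finset.mul_sum]
  refine Finset.sum_congr rfl fun t0 _ => Finset.sum_congr rfl fun t1 _ =>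
    Finset.sum_congr rfl fun t2 _ => ?_
  ring

end Pool.Agent.H980R3.Slit
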