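import Pool.Agent.H980R3.Slit.Stubs

/-! C10 (helper605): probability of the window event of the slit strip. -/

namespace Pool.Agent.H980R3.Slit

open Pool.Agent.H988R2.Perc
open MeasureTheory Finset

namespace C10

theorem X_futR (a b M : ℕ) (ω : Conf) :
    X b (actBit (oFutR a ω M)) M = X b (actBit (T23.bits (tR a b M ω))) M := by
  apply T23.X_congr
  intro k i hk h1 h2
  have : oFutR a ω M k i = T23.bits (tR a b M ω) k i := by
    have hm : (k, i) ∈ T23.SS b M := by rw [T23.mem_SS]; exact ⟨hk, h1, h2⟩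
    simp only [oFutR, T23.bits, tR, mem_filter, hm, true_and]
    cases ω (edgeOf ((i : ℤ) + (a + 1)) (2 * (M : ℤ) - 1 - k)) <;> simp
  simp only [actBit, this]

abbrev Tr := Finset (ℕ × ℕ) × (Finset (ℕ × ℕ) × Finset (ℕ × ℕ))

open Classical in
/-- the good cells -/
noncomputable def good3 (a b M : ℕ) : Finset Tr :=
  ((T23.SS (a+b+1) M).powerset ×ˢ ((T23.SS a M).powerset ×ˢ (T23.SS b M).powerset)).filter
    (fun p => conn3 a b (X (a+b+1) (actBit (T23.bits p.1)) M) (X a (actBit (T23.bits p.2.1)) M)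
      (X b (actBit (T23.bits p.2.2)) M))

theorem mem_good3 {a b M : ℕ} {p : Tr} :
    p ∈ good3 a b M ↔ (p.1 ⊆ T23.SS (a+b+1) M ∧ p.2.1 ⊆ T23.SS a M ∧ p.2.2 ⊆ T23.SS b M) ∧
      conn3 a b (X (a+b+1) (actBit (T23.bits p.1)) M) (X a (actBit (T23.bits p.2.1)) M)
        (X b (actBit (T23.bits p.2.2)) M) := by
  classical
  unfold good3
  rw [Finset.mem_filter, Finset.mem_product, Finset.mem_product, Finset.mem_powerset,
    Finset.mem_powerset, Finset.mem_powerset]

theorem winS_eq (a b M : ℕ) :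
    WinS a b M = ⋃ p ∈ good3 a b M, cell3 a b M p.1 p.2.1 p.2.2 := by
  ext ω
  simp only [WinS, Set.mem_ofPred_eq, Set.mem_iUnion, exists_prop]
  rw [T23.X_past, T23.X_fut, X_futR]
  constructor
  · intro h
    refine ⟨(T23.tP (a+b+1) M ω, T23.tF a M ω, tR a b M ω), ?_, rfl, rfl, rfl⟩
    rw [mem_good3]
    exact ⟨⟨filter_subset _ _, filter_subset _ _, filter_subset _ _⟩, h⟩
  · rintro ⟨⟨p1, p2, p3⟩, hp, h1, h2, h3⟩
    simp only at h1 h2 h3
    subst h1 h2 h3
    rw [mem_good3] at hp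
    exact hp.2

open Classical in
theorem sum_good3 (a b M : ℕ) :
    (∑ t0 ∈ (T23.SS (a+b+1) M).powerset, ∑ t1 ∈ (T23.SS a M).powerset,
        ∑ t2 ∈ (T23.SS b M).powerset,
        (if conn3 a b (X (a+b+1) (actBit (T23.bits t0)) M) (X a (actBit (T23.bits t1)) M)
          (X b (actBit (T23.bits t2)) M) then (1 : ℂ) else 0)) = ((good3 a b M).card : ℂ) := by
  unfold good3
  rw [Finset.natCast_card_filter, Finset.sum_product]
  refine Finset.sum_congr rfl fun t0 _ => ?_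
  rw [Finset.sum_product]

end C10

open C10 in
theorem t_C10 (h8 : S_C08) (h9 : S_C09) : S_C10 := by
  intro a b M _ _
  have hc : ∀ p ∈ good3 a b M, MeasurableSet (cell3 a b M p.1 p.2.1 p.2.2) ∧
      perc (cell3 a b M p.1 p.2.1 p.2.2) = (1/2) ^ (2*M*(a+b+1) + 2*M*a + 2*M*b) := by
    intro p hp
    obtain ⟨⟨h1, h2, h3⟩, _⟩ := mem_good3.1 hp
    exact h8 a b M p.1 p.2.1 p.2.2 h1 h2 h3
  rw [T23.law_eq, T23.law_eq, T23.law_eq, h9, winS_eq, measureReal_biUnion_finset]
  · have h1 : ∀ p ∈ good3 a b M, perc.real (cell3 a b M p.1 p.2.1 p.2.2) =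
        (1/2 : ℝ)^(2*M*(a+b+1) + 2*M*a + 2*M*b) := by
      intro p hp
      rw [measureReal_def, (hc p hp).2]
      simp
    rw [Finset.sum_congr rfl h1, Finset.sum_const, nsmul_eq_mul]
    rw [sum_good3]
    push_cast
    rw [← pow_add, ← pow_add, mul_comm]
  · intro p _ p' _ hne
    rw [Function.onFun, Set.disjoint_left]
    rintro ω ⟨h1, h2, h3⟩ ⟨h4, h5, h6⟩
    exact hne (Prod.ext (h1.symm.trans h4) (Prod.ext (h2.symm.trans h5) (h3.symm.trans h6)))
  · intro p hp
    exact (hc p hp).1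

end Pool.Agent.H980R3.Slit
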