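import Pool.Agent.H980R3.Slit.Stubs

/-! C12: the law of the state converges in the `l^1` norm (helper959; from T24 of helper988's project). -/

namespace Pool.Agent.H980R3.Slit

open Filter Topology Pool.Agent.H988R2.Perc Pool.Agent.H988R2.Perc.T24

theorem C12_core (L : ℕ) (hL : Odd L) (v : St →₀ ℂ) (hT : Tvec L v = v)
    (hs : ∀ R ∈ v.support, ∀ a b, R.rel a b → a = b ∨ (a < L + 1 ∧ b < L + 1))
    (hm : mass v ≠ 0) :
    Tendsto (fun M => nrm (law L M - (mass v)⁻¹ • v)) atTop (𝓝 0) := by
  set w : St →₀ ℂ := (mass v)⁻¹ • v with hw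
  have hwT : Tvec L w = w := by rw [hw, (dob_Tvec L).smul, hT]
  have hwm : mass w = 1 := by rw [hw, mass_smul, inv_mul_cancel₀ hm]
  have hwB : BdV (L+1) w := BdV.smul (fun R hR => hs R hR) _
  set u : St →₀ ℂ := Finsupp.single St.bot 1 + (-1 : ℂ) • w with hu
  have huB : BdV (L+1) u := by
    refine BdV.add ?_ (hwB.smul _)
    intro R hR a b h
    have : R = St.bot := by
      have := Finsupp.support_single_subset hR
      simpa using this
    subst this
    exact Or.inl h
  have hum : mass u = 0 := by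
    rw [hu, mass_add, mass_smul, mass_single, hwm]; ring
  have hlaw : ∀ M, law L M = (Tvec L)^[M] u + w := by
    intro M
    have e : (Finsupp.single St.bot 1 : St →₀ ℂ) = u + w := by
      rw [hu]; simp
    rw [law, e, iter_add, iter_fix L M w hwT]
  set ρ : ℝ := 1 - (1/2)^L * (1/2)^L with hρ
  have hρ0 : 0 ≤ ρ := by have := (dob_Tvec L).le; linarith
  have hρ1 : ρ < 1 := by
    have : (0:ℝ) < (1/2)^L * (1/2)^L := by positivity
    linarith
  have hlim : Tendsto (fun M : ℕ => ρ^M * nrm u) atTop (𝓝 0) := by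
    have := (tendsto_pow_atTop_nhds_zero_of_lt_one hρ0 hρ1).mul_const (nrm u)
    simpa using this
  refine squeeze_zero (fun _ => nrm_nonneg _) (fun M => ?_) hlim
  obtain ⟨h1, _, _⟩ := iter_bound hL huB hum M
  rw [hlaw M, add_sub_cancel_right]
  exact h1

theorem t_C12 : S_C12 := by
  intro L v hL hT hs hm
  have h := C12_core L hL v hT hs hm
  have e : ∀ M, law L M + (-1 : ℂ) • ((mass v)⁻¹ • v) = law L M - (mass v)⁻¹ • v := by
    intro M
    rw [neg_one_smul, sub_eq_add_neg]
  simp only [e]
  exact h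

end Pool.Agent.H980R3.Slit
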