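import Pool.Agent.H980R3.Slit.Stubs

/-! C13: convergence of the trilinear pairing. -/

namespace Pool.Agent.H980R3.Slit

open Pool.Agent.H988R2.Perc Filter Topology

theorem t_C13 (h : S_C11) : S_C13 := by
  obtain ⟨a0, a1, a2, m0, m1, m2, hb⟩ := h
  intro a b f0 f1 f2 w0 w1 w2 h0 h1 h2
  rw [tendsto_iff_norm_sub_tendsto_zero]
  have hF : Tendsto (fun M => T24.nrm (f0 M + (-1 : ℂ) • w0) *
      (T24.nrm (f1 M + (-1 : ℂ) • w1) + T24.nrm w1) * (T24.nrm (f2 M + (-1 : ℂ) • w2) + T24.nrm w2)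
      + T24.nrm w0 * T24.nrm (f1 M + (-1 : ℂ) • w1) * (T24.nrm (f2 M + (-1 : ℂ) • w2) + T24.nrm w2)
      + T24.nrm w0 * T24.nrm w1 * T24.nrm (f2 M + (-1 : ℂ) • w2)) atTop
      (𝓝 (0 * (0 + T24.nrm w1) * (0 + T24.nrm w2) + T24.nrm w0 * 0 * (0 + T24.nrm w2)
        + T24.nrm w0 * T24.nrm w1 * 0)) :=
    (((h0.mul (h1.add_const _)).mul (h2.add_const _)).add
      ((h1.const_mul _).mul (h2.add_const _))).add (h2.const_mul _)
  have hz : (0 * (0 + T24.nrm w1) * (0 + T24.nrm w2) + T24.nrm w0 * 0 * (0 + T24.nrm w2)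
        + T24.nrm w0 * T24.nrm w1 * 0) = 0 := by ring
  rw [hz] at hF
  refine squeeze_zero (fun _ => norm_nonneg _) (fun M => ?_) hF
  set d0 := f0 M + (-1 : ℂ) • w0 with hd0
  set d1 := f1 M + (-1 : ℂ) • w1 with hd1
  set d2 := f2 M + (-1 : ℂ) • w2 with hd2
  have e0 : f0 M = d0 + w0 := by rw [hd0]; simp
  have e1 : f1 M = d1 + w1 := by rw [hd1]; simp
  have e2 : f2 M = d2 + w2 := by rw [hd2]; simp
  have e : pair3 a b (f0 M) (f1 M) (f2 M) - pair3 a b w0 w1 w2 =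
      pair3 a b d0 (f1 M) (f2 M) + pair3 a b w0 d1 (f2 M) + pair3 a b w0 w1 d2 := by
    rw [e0, a0, e1, a1 a b w0, e2, a2 a b w0 w1]
    ring
  rw [e]
  have n1 := hb a b d0 (f1 M) (f2 M)
  have n2 := hb a b w0 d1 (f2 M)
  have n3 := hb a b w0 w1 d2
  have k1 : T24.nrm (f1 M) ≤ T24.nrm d1 + T24.nrm w1 := by rw [e1]; exact T24.nrm_add_le _ _
  have k2 : T24.nrm (f2 M) ≤ T24.nrm d2 + T24.nrm w2 := by rw [e2]; exact T24.nrm_add_le _ _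
  have p0 := T24.nrm_nonneg d0
  have p1 := T24.nrm_nonneg d1
  have p2 := T24.nrm_nonneg d2
  have q0 := T24.nrm_nonneg w0
  have q1 := T24.nrm_nonneg w1
  have q2 := T24.nrm_nonneg w2
  have r1 := T24.nrm_nonneg (f1 M)
  have r2 := T24.nrm_nonneg (f2 M)
  have s1 : T24.nrm d0 * T24.nrm (f1 M) * T24.nrm (f2 M) ≤
      T24.nrm d0 * (T24.nrm d1 + T24.nrm w1) * (T24.nrm d2 + T24.nrm w2) :=
    mul_le_mul (mul_le_mul_of_nonneg_left k1 p0) k2 r2 (by positivity)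
  have s2 : T24.nrm w0 * T24.nrm d1 * T24.nrm (f2 M) ≤
      T24.nrm w0 * T24.nrm d1 * (T24.nrm d2 + T24.nrm w2) :=
    mul_le_mul_of_nonneg_left k2 (by positivity)
  calc ‖pair3 a b d0 (f1 M) (f2 M) + pair3 a b w0 d1 (f2 M) + pair3 a b w0 w1 d2‖
      ≤ ‖pair3 a b d0 (f1 M) (f2 M)‖ + ‖pair3 a b w0 d1 (f2 M)‖ + ‖pair3 a b w0 w1 d2‖ :=
        norm_add₃_le
    _ ≤ _ := by linarith

end Pool.Agent.H980R3.Slit
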