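import Pool.Agent.H980R3.Slit.Stubs
import Pool.Agent.H988R2.Perc.T26

/-! Assembly of the percolation link of the slit strip. -/

namespace Pool.Agent.H980R3.Slit

open Pool.Agent.H988R2.Perc Filter Topology MeasureTheory Relation

theorem GP_mono {lo hi t0 t1 t0' t1' : ℤ} (h0 : t0' ≤ t0) (h1 : t1 ≤ t1') {ω : Conf} {p p' : ℤ × ℤ}
    (h : GP lo hi t0 t1 ω p p') : GP lo hi t0' t1' ω p p' := by
  obtain ⟨i, r, a1, a2, a3, a4, a5, a6⟩ := h
  exact ⟨i, r, a1, a2, by omega, by omega, a5, a6⟩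

theorem EE_mono {a b M M' : ℕ} (hM : M ≤ M') {ω : Conf} {p p' : ℤ × ℤ}
    (h : EE a b M ω p p') : EE a b M' ω p p' := by
  have hM' : (M : ℤ) ≤ M' := by exact_mod_cast hM
  rcases h with (h | h) | (h | h) | (h | h)
  · exact Or.inl (Or.inl (GP_mono (by omega) le_rfl h))
  · exact Or.inl (Or.inr h)
  · exact Or.inr (Or.inl (Or.inl (GP_mono le_rfl (by omega) h)))
  · exact Or.inr (Or.inl (Or.inr h))
  · exact Or.inr (Or.inr (Or.inl (GP_mono le_rfl (by omega) h)))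
  · exact Or.inr (Or.inr (Or.inr h))

theorem winS_mono (h4 : S_C04) (h5 : S_C05) {a b : ℕ} (ha : Odd a) (hb : Odd b) :
    Monotone (WinS a b) := by
  intro M M' hM ω h
  exact h5 a b M' ω ha hb ((h4 a b M ω ha hb h).mono fun _ _ h => EE_mono hM h)

theorem iUnion_winS (h4 : S_C04) (h5 : S_C05) (h6 : S_C06) (h7 : S_C07) {a b : ℕ} (ha : Odd a)
    (hb : Odd b) : ⋃ M, WinS a b M = SlitCross a b := by
  ext ω
  rw [Set.mem_iUnion]
  constructor
  · rintro ⟨M, h⟩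
    exact h6 a b M ω ha hb (h4 a b M ω ha hb h)
  · intro h
    obtain ⟨M, hM⟩ := h7 a b ω ha hb h
    exact ⟨M, h5 a b M ω ha hb hM⟩

theorem psi1_mass_ne (N : ℕ) (hN : Odd N) : mass (psi1 N) ≠ 0 := by
  obtain ⟨m, rfl⟩ := hN
  have : mass (psi1 (2*m+1)) = q^((m+1)*m) * (chi (2*m+1) : ℂ) := Z_ones_zero m
  rw [this]
  refine mul_ne_zero (pow_ne_zero _ q_ne_zero) ?_
  exact_mod_cast (chi_pos (2*m+1)).ne'

theorem psi1_law (h12 : S_C12) (N : ℕ) (hN : Odd N) :
    Tendsto (fun M => T24.nrm (law N M + (-1 : ℂ) • ((mass (psi1 N))⁻¹ • psi1 N))) atTop (𝓝 0) := by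
  refine h12 N (psi1 N) hN (stationary N hN) ?_ (psi1_mass_ne N hN)
  intro R hR a b hab
  have hlen : (List.replicate N (1:ℂ) ++ [0]).length = N + 1 := by simp
  have := Psi_supp (List.replicate N 1 ++ [0]) (by rw [hlen]; exact hN.add_one) R hR a b hab
  rw [hlen] at this
  exact this

theorem t_final (h4 : S_C04) (h5 : S_C05) (h6 : S_C06) (h7 : S_C07) (h10 : S_C10) (h11 : S_C11)
    (h12 : S_C12) (h13 : S_C13) : S_final := by
  intro a b ha hb
  have hL : Odd (a + b + 1) := (ha.add_odd hb).add_one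
  have e1 : Tendsto (fun M => perc.real (WinS a b M)) atTop (𝓝 (perc.real (SlitCross a b))) := by
    have h1 : Tendsto (fun M => perc (WinS a b M)) atTop (𝓝 (perc (⋃ M, WinS a b M))) :=
      tendsto_measure_iUnion_atTop (winS_mono h4 h5 ha hb)
    rw [iUnion_winS h4 h5 h6 h7 ha hb] at h1
    exact (ENNReal.tendsto_toReal (measure_ne_top perc (SlitCross a b))).comp h1
  have e2 : Tendsto (fun M => ((perc.real (WinS a b M) : ℝ) : ℂ)) atTop
      (𝓝 ((perc.real (SlitCross a b) : ℝ) : ℂ)) :=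
    (Complex.continuous_ofReal.tendsto _).comp e1
  have e3 := h13 a b (law (a+b+1)) (law a) (law b) _ _ _ (psi1_law h12 (a+b+1) hL)
    (psi1_law h12 a ha) (psi1_law h12 b hb)
  have e4 : Tendsto (fun M => ((perc.real (WinS a b M) : ℝ) : ℂ)) atTop
      (𝓝 (pair3 a b ((mass (psi1 (a+b+1)))⁻¹ • psi1 (a+b+1)) ((mass (psi1 a))⁻¹ • psi1 a)
        ((mass (psi1 b))⁻¹ • psi1 b))) := by
    refine e3.congr fun M => ?_
    rw [h10 a b M ha hb]
  have e5 := tendsto_nhds_unique e2 e4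
  obtain ⟨_, _, _, s1, s2, s3, _⟩ := h11
  rw [e5, s1, s2, s3]
  have n0 := psi1_mass_ne _ hL
  have n1 := psi1_mass_ne a ha
  have n2 := psi1_mass_ne b hb
  field_simp

end Pool.Agent.H980R3.Slit
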