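import Pool.Agent.H980R3.Slit.C01
import Pool.Agent.H980R3.Slit.C02
import Pool.Agent.H980R3.Slit.C03
import Pool.Agent.H980R3.Slit.C04
import Pool.Agent.H980R3.Slit.C05
import Pool.Agent.H980R3.Slit.C06
import Pool.Agent.H980R3.Slit.C07
import Pool.Agent.H980R3.Slit.C08
import Pool.Agent.H980R3.Slit.C09
import Pool.Agent.H980R3.Slit.C10
import Pool.Agent.H980R3.Slit.C11
import Pool.Agent.H980R3.Slit.C12
import Pool.Agent.H980R3.Slit.C13
import Pool.Agent.H980R3.Slit.C14
import Pool.Agent.H980R3.Slit.Bridge31

/-! Part (C) of the exact Cardy formula: the percolation link of the slit strip, assembled.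
C01 helper218, C02 helper267, C03 helper293, C04 helper20, C05 helper261, C06 C07 helper733,
C08 helper687, C09 helper338, C10 helper605, C11 helper666, C12 helper959, C13 C14 helper980. -/

namespace Pool.Agent.H980R3.Slit

/-- The exact probability that the left side of the slit and the right wall of the slit strip are
joined by an open path, in terms of the three stationary vectors. -/
theorem final : S_final :=
  t_final (t_C04 t_C01 t_C02 t_C03) (t_C05 t_C01 t_C02 t_C03) t_C06 t_C07 (t_C10 t_C08 t_C09)
    t_C11 t_C12 (t_C13 t_C11)

/-- part (C), in the form used by helper31's assembly -/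
theorem s_C : H31C.S_C := S_C_of final

/-- the symmetry of the stationary vector (the `T` input of helper31's assembly) -/
theorem s_T : H31C.S_T := S_T_of

end Pool.Agent.H980R3.Slit
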