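import Mathlib
import Pool.Agent.H988R2.Perc.Defs
import Pool.Agent.H988R2.Perc.T22

/-!
The slit strip: definitions (critical bond percolation on `ℤ²`).

`L = a + b + 1`, `a`, `b` odd.  Coordinates: column `u - v`, time `u + v - 1`.  The strip is
`0 ≤ u - v ≤ L`; the edges joining the columns `a` and `a+1` at times `≥ 0` are removed
(vertical slit).  The left side of the slit is the column `a` (times `≥ 0`), the right wall of the
strip is the column `L`.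
-/

namespace Pool.Agent.H980R3.Slit

open Pool.Agent.H988R2.Perc

/-- the relation on the faces of the lower strip generated by three states: `R` (lower strip),
`R1` (upper left strip, faces `≤ a`), `R2` (upper right strip, faces shifted by `a+1`). -/
def J3 (a : ℕ) (R R1 R2 : St) (x y : ℕ) : Prop :=
  R.rel x y ∨ (R1.rel x y ∧ x ≤ a ∧ y ≤ a) ∨
    (a + 2 ≤ x ∧ a + 2 ≤ y ∧ R2.rel (x - (a+1)) (y - (a+1)))

/-- the left side of the slit (face `a`) and the right wall (face `a+b+1`) are joined -/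
def conn3 (a b : ℕ) (R R1 R2 : St) : Prop :=
  Relation.EqvGen (J3 a R R1 R2) a (a+b+1)

open Classical in
/-- the trilinear pairing -/
noncomputable def pair3 (a b : ℕ) (f g h : St →₀ ℂ) : ℂ :=
  f.sum fun R α => g.sum fun R1 β => h.sum fun R2 γ =>
    α * β * γ * (if conn3 a b R R1 R2 then 1 else 0)

/-- adjacency in the slit strip -/
def SlitAdj (a b : ℕ) (ω : Conf) (x y : ℤ × ℤ) : Prop :=
  OpenAdj ω x y ∧ (0 ≤ x.1 - x.2 ∧ x.1 - x.2 ≤ a + b + 1) ∧ (0 ≤ y.1 - y.2 ∧ y.1 - y.2 ≤ a + b + 1) ∧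
  ¬ (1 ≤ x.1 + x.2 ∧ 1 ≤ y.1 + y.2 ∧
    ((x.1 - x.2 = a ∧ y.1 - y.2 = a + 1) ∨ (x.1 - x.2 = a + 1 ∧ y.1 - y.2 = a)))

/-- open crossing, inside the slit strip, from the left side of the slit to the right wall -/
def SlitCross (a b : ℕ) : Set Conf :=
  {ω | ∃ x y : ℤ × ℤ, x.1 - x.2 = a ∧ 1 ≤ x.1 + x.2 ∧ y.1 - y.2 = a + b + 1 ∧
    Relation.ReflTransGen (SlitAdj a b ω) x y}

/-- open bits of the future window of the upper right strip (read downwards) -/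
def oFutR (a : ℕ) (ω : Conf) (M : ℕ) (k i : ℕ) : Bool :=
  ω (edgeOf ((i : ℤ) + (a + 1)) (2 * (M : ℤ) - 1 - k))

/-- the window event of the slit strip -/
def WinS (a b M : ℕ) : Set Conf :=
  {ω | conn3 a b (X (a+b+1) (actBit (oPast ω M)) M) (X a (actBit (oFut ω M)) M)
    (X b (actBit (oFutR a ω M)) M)}

/-! ### graphs in the coordinates `(column, time)` -/

/-- open tiles `(i,r)` with `lo ≤ i ≤ hi`, `t0 ≤ r < t1` -/
def GP (lo hi t0 t1 : ℤ) (ω : Conf) (p p' : ℤ × ℤ) : Prop :=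
  ∃ i r : ℤ, lo ≤ i ∧ i ≤ hi ∧ t0 ≤ r ∧ r < t1 ∧ ω (edgeOf i r) = true ∧
    (((i + r) % 2 = 1 ∧ p = (i, r) ∧ p' = (i-1, r+1)) ∨
     ((i + r) % 2 = 0 ∧ p = (i-1, r) ∧ p' = (i, r+1)))

/-- lower strip with wired right wall -/
def E0 (a b M : ℕ) (ω : Conf) (p p' : ℤ × ℤ) : Prop :=
  GP 1 (a + b + 1) (-(2 * (M : ℤ))) 0 ω p p' ∨ (p.1 = a + b + 1 ∧ p'.1 = a + b + 1)

/-- upper left strip with wired right wall (times `≥ 0`) -/
def E1 (a M : ℕ) (ω : Conf) (p p' : ℤ × ℤ) : Prop :=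
  GP 1 a 0 (2 * (M : ℤ)) ω p p' ∨ (p.1 = a ∧ p'.1 = a ∧ 0 ≤ p.2 ∧ 0 ≤ p'.2)

/-- upper right strip with wired right wall -/
def E2 (a b M : ℕ) (ω : Conf) (p p' : ℤ × ℤ) : Prop :=
  GP (a + 2) (a + b + 1) 0 (2 * (M : ℤ)) ω p p' ∨ (p.1 = a + b + 1 ∧ p'.1 = a + b + 1)

/-- the whole window with the wired walls -/
def EE (a b M : ℕ) (ω : Conf) (p p' : ℤ × ℤ) : Prop :=
  E0 a b M ω p p' ∨ E1 a M ω p p' ∨ E2 a b M ω p p'

end Pool.Agent.H980R3.Slit
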