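import Pool.Agent.H980R3.Slit.C14
import Pool.Agent.H988C.Defs

/-! The two sets of definitions agree. -/

namespace Pool.Agent.H980R3.Slit

open Pool.Agent.H988R2.Perc Relation Pool.Agent.H988C

theorem conn3_iff_gconn (a b : ℕ) (ha : Odd a) (R R1 R2 : St) :
    conn3 a b R R1 R2 ↔ gconn a (a+b+1) R (glue a ha R1 R2) := by
  unfold conn3 gconn
  constructor
  · refine fun h => h.mono ?_
    rintro x y (h | ⟨h, h1, h2⟩ | ⟨h1, h2, h⟩)
    · exact Or.inl h
    · exact Or.inr (Or.inr (Or.inl ⟨h1, h2, h⟩))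
    · exact Or.inr (Or.inr (Or.inr ⟨by omega, by omega, h⟩))
  · intro h
    have key : ∀ x y, (R.rel x y ∨ (glue a ha R1 R2).rel x y) → EqvGen (J3 a R R1 R2) x y := by
      rintro x y (h | h | ⟨h1, h2, h⟩ | ⟨h1, h2, h⟩)
      · exact EqvGen.rel _ _ (Or.inl h)
      · subst h; exact EqvGen.refl _
      · exact EqvGen.rel _ _ (Or.inr (Or.inl ⟨h, h1, h2⟩))
      · rcases R2.odd _ _ h with k | ⟨k1, k2⟩
        · have : x = y := by omega
          subst this; exact EqvGen.refl _
        · exact EqvGen.rel _ _ (Or.inr (Or.inr ⟨by omega, by omega, h⟩))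
    have main : ∀ x y, EqvGen (fun x y => R.rel x y ∨ (glue a ha R1 R2).rel x y) x y →
        EqvGen (J3 a R R1 R2) x y := by
      intro x y h
      induction h with
      | rel x y h => exact key x y h
      | refl x => exact EqvGen.refl _
      | symm x y _ ih => exact ih.symm
      | trans x y z _ _ i1 i2 => exact i1.trans _ _ _ i2
    exact main _ _ h

theorem pair3_eq_tri (a b : ℕ) (ha : Odd a) (f g h : St →₀ ℂ) :
    pair3 a b f g h = tri a b ha f g h := by
  classical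
  unfold pair3 tri
  refine Finsupp.sum_congr fun R _ => Finsupp.sum_congr fun R1 _ => Finsupp.sum_congr fun R2 _ => ?_
  have := conn3_iff_gconn a b ha R R1 R2
  by_cases hc : conn3 a b R R1 R2
  · rw [if_pos hc, if_pos (this.1 hc)]
  · rw [if_neg hc, if_neg (fun h => hc (this.2 h))]

theorem slitCross_eq (a b : ℕ) : SlitCross a b = SCross a b := by
  have e : ∀ ω x y, SlitAdj a b ω x y ↔ (OpenAdj ω x y ∧ SlitOK a b x y) := by
    intro ω x y
    unfold SlitAdj SlitOK
    constructor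
    · rintro ⟨h, h1, h2, h3⟩
      refine ⟨h, h1, h2, ?_⟩
      rintro ⟨k1, k2, k3⟩
      apply h3
      refine ⟨k1, k2, ?_⟩
      rcases h with ⟨e, _⟩ | ⟨e, _⟩ | ⟨e, _⟩ | ⟨e, _⟩ <;> rw [e] at k3 ⊢ <;> dsimp only at k3 ⊢ <;> omega
    · rintro ⟨h, h1, h2, h3⟩
      refine ⟨h, h1, h2, ?_⟩
      rintro ⟨k1, k2, k3⟩
      apply h3
      refine ⟨k1, k2, ?_⟩
      omega
  unfold SlitCross SCross
  have e2 : ∀ ω, SlitAdj a b ω = fun x y => OpenAdj ω x y ∧ SlitOK a b x y := by
    intro ω; funext x y; exact propext (e ω x y)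
  ext ω
  simp only [Set.mem_ofPred_eq, e2]

/-- `S_final` in the notation of `H988C` -/
theorem final_tri (h : S_final) (a b : ℕ) (ha : Odd a) (hb : Odd b) :
    ((perc.real (SCross a b) : ℝ) : ℂ) =
      tri a b ha (Psi1 (a+b+1)) (Psi1 a) (Psi1 b) /
        (mass (Psi1 (a+b+1)) * mass (Psi1 a) * mass (Psi1 b)) := by
  rw [← slitCross_eq, h a b ha hb, pair3_eq_tri a b ha]
  rfl

end Pool.Agent.H980R3.Slit
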