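import Pool.Agent.H980R3.Slit.Stubs

/-! C01: the upper left state of the slit strip. -/

namespace Pool.Agent.H980R3.Slit

open Pool.Agent.H988R2.Perc Filter Topology MeasureTheory Relation

theorem t_C01 : S_C01 := by
  intro a M ω x y ha hx hy hxa hya
  rw [T22.future_iff a ha M ω x y hx hy hxa hya]
  constructor
  · intro h
    have h1 := T22.eqvGen_map (F := E1 a M ω)
      (fun p : ℤ × ℤ => if p.2 < 0 then (p.1, 0) else p) ?_ h
    · simpa using h1
    · rintro p p' (hp | ⟨h1, h2⟩)
      · obtain ⟨f1, f2, f3, _⟩ := T22.gpart_facts hp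
        have e1 : ¬ p.2 < 0 := by omega
        have e2 : ¬ p'.2 < 0 := by omega
        simp only [if_neg e1, if_neg e2]
        exact EqvGen.rel _ _ (Or.inl hp)
      · refine EqvGen.rel _ _ (Or.inr ?_)
        have key : ∀ q : ℤ × ℤ, (if q.2 < 0 then (q.1, (0:ℤ)) else q).1 = q.1 ∧
            0 ≤ (if q.2 < 0 then (q.1, (0:ℤ)) else q).2 := by
          intro q
          split_ifs with hq
          · exact ⟨rfl, le_rfl⟩
          · exact ⟨rfl, not_lt.1 hq⟩
        exact ⟨(key p).1.trans h1, (key p').1.trans h2, (key p).2, (key p').2⟩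
  · intro h
    refine h.mono ?_
    rintro p p' (hp | ⟨h1, h2, _, _⟩)
    · exact Or.inl hp
    · exact Or.inr ⟨h1, h2⟩

end Pool.Agent.H980R3.Slit
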