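import Pool.Agent.H980R3.Slit.Defs
import Pool.Agent.H988R2.Perc.T23
import Pool.Agent.H988R2.Perc.T24

/-! Statements of the tasks C01.. (percolation link of the slit strip). -/

namespace Pool.Agent.H980R3.Slit

open Pool.Agent.H988R2.Perc Filter Topology MeasureTheory Relation

/-- upper left state -/
def S_C01 : Prop := ∀ (a M : ℕ) (ω : Conf) (x y : ℕ), Odd a → x % 2 = 1 → y % 2 = 1 → x ≤ a → y ≤ a →
  ((X a (actBit (oFut ω M)) M).rel x y ↔ EqvGen (E1 a M ω) ((x : ℤ), 0) ((y : ℤ), 0))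

/-- lower state -/
def S_C02 : Prop := ∀ (a b M : ℕ) (ω : Conf) (x y : ℕ), Odd a → Odd b → x % 2 = 1 → y % 2 = 1 →
  x ≤ a + b + 1 → y ≤ a + b + 1 →
  ((X (a+b+1) (actBit (oPast ω M)) M).rel x y ↔ EqvGen (E0 a b M ω) ((x : ℤ), 0) ((y : ℤ), 0))

/-- upper right state -/
def S_C03 : Prop := ∀ (a b M : ℕ) (ω : Conf) (x y : ℕ), Odd a → Odd b → x % 2 = 1 → y % 2 = 1 →
  x ≤ b → y ≤ b →
  ((X b (actBit (oFutR a ω M)) M).rel x y ↔
    EqvGen (E2 a b M ω) ((x : ℤ) + (a + 1), 0) ((y : ℤ) + (a + 1), 0))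

/-- gluing, easy direction -/
def S_C04 : Prop := ∀ (a b M : ℕ) (ω : Conf), Odd a → Odd b → ω ∈ WinS a b M →
  EqvGen (EE a b M ω) ((a : ℤ), 0) ((a : ℤ) + b + 1, 0)

/-- gluing, the other direction -/
def S_C05 : Prop := ∀ (a b M : ℕ) (ω : Conf), Odd a → Odd b →
  EqvGen (EE a b M ω) ((a : ℤ), 0) ((a : ℤ) + b + 1, 0) → ω ∈ WinS a b M

/-- a window crossing gives a crossing of the slit strip -/
def S_C06 : Prop := ∀ (a b M : ℕ) (ω : Conf), Odd a → Odd b →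
  EqvGen (EE a b M ω) ((a : ℤ), 0) ((a : ℤ) + b + 1, 0) → ω ∈ SlitCross a b

/-- a crossing of the slit strip gives a window crossing -/
def S_C07 : Prop := ∀ (a b : ℕ) (ω : Conf), Odd a → Odd b → ω ∈ SlitCross a b →
  ∃ M, EqvGen (EE a b M ω) ((a : ℤ), 0) ((a : ℤ) + b + 1, 0)

/-- upper right bits as a set -/
def tR (a b M : ℕ) (ω : Conf) : Finset (ℕ × ℕ) :=
  (T23.SS b M).filter (fun j => ω (edgeOf ((j.2 : ℤ) + (a + 1)) (2 * (M : ℤ) - 1 - j.1)) = true)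

/-- a cell of the partition by the values of all the bits of the window -/
def cell3 (a b M : ℕ) (p0 p1 p2 : Finset (ℕ × ℕ)) : Set Conf :=
  {ω | T23.tP (a+b+1) M ω = p0 ∧ T23.tF a M ω = p1 ∧ tR a b M ω = p2}

def S_C08 : Prop := ∀ (a b M : ℕ) (p0 p1 p2 : Finset (ℕ × ℕ)), p0 ⊆ T23.SS (a+b+1) M → p1 ⊆ T23.SS a M →
  p2 ⊆ T23.SS b M → MeasurableSet (cell3 a b M p0 p1 p2) ∧
  perc (cell3 a b M p0 p1 p2) = (1/2) ^ (2*M*(a+b+1) + 2*M*a + 2*M*b)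

open Classical in
def S_C09 : Prop := ∀ (a b : ℕ) (α β γ : ℂ) (P0 P1 P2 : Finset (Finset (ℕ × ℕ)))
  (R0 R1 R2 : Finset (ℕ × ℕ) → St),
  pair3 a b (α • ∑ t ∈ P0, Finsupp.single (R0 t) (1:ℂ)) (β • ∑ t ∈ P1, Finsupp.single (R1 t) (1:ℂ))
    (γ • ∑ t ∈ P2, Finsupp.single (R2 t) (1:ℂ)) =
  α * β * γ * ∑ t0 ∈ P0, ∑ t1 ∈ P1, ∑ t2 ∈ P2, (if conn3 a b (R0 t0) (R1 t1) (R2 t2) then 1 else 0)

/-- the probability of the window event -/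
def S_C10 : Prop := ∀ (a b M : ℕ), Odd a → Odd b → ((perc.real (WinS a b M) : ℝ) : ℂ) =
  pair3 a b (law (a+b+1) M) (law a M) (law b M)

/-- trilinearity and bound -/
def S_C11 : Prop := (∀ (a b : ℕ) (f f' g h : St →₀ ℂ),
    pair3 a b (f + f') g h = pair3 a b f g h + pair3 a b f' g h) ∧
  (∀ (a b : ℕ) (f g g' h : St →₀ ℂ),
    pair3 a b f (g + g') h = pair3 a b f g h + pair3 a b f g' h) ∧
  (∀ (a b : ℕ) (f g h h' : St →₀ ℂ),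
    pair3 a b f g (h + h') = pair3 a b f g h + pair3 a b f g h') ∧
  (∀ (a b : ℕ) (c : ℂ) (f g h : St →₀ ℂ), pair3 a b (c • f) g h = c * pair3 a b f g h) ∧
  (∀ (a b : ℕ) (c : ℂ) (f g h : St →₀ ℂ), pair3 a b f (c • g) h = c * pair3 a b f g h) ∧
  (∀ (a b : ℕ) (c : ℂ) (f g h : St →₀ ℂ), pair3 a b f g (c • h) = c * pair3 a b f g h) ∧
  (∀ (a b : ℕ) (f g h : St →₀ ℂ), ‖pair3 a b f g h‖ ≤ T24.nrm f * T24.nrm g * T24.nrm h)

/-- the law of the state converges -/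
def S_C12 : Prop := ∀ (L : ℕ) (v : St →₀ ℂ), Odd L → Tvec L v = v →
  (∀ R ∈ v.support, ∀ a b, R.rel a b → a = b ∨ (a < L + 1 ∧ b < L + 1)) → mass v ≠ 0 →
  Tendsto (fun M => T24.nrm (law L M + (-1 : ℂ) • ((mass v)⁻¹ • v))) atTop (𝓝 0)

/-- convergence of the pairing -/
def S_C13 : Prop := ∀ (a b : ℕ) (f0 f1 f2 : ℕ → St →₀ ℂ) (w0 w1 w2 : St →₀ ℂ),
  Tendsto (fun M => T24.nrm (f0 M + (-1 : ℂ) • w0)) atTop (𝓝 0) →
  Tendsto (fun M => T24.nrm (f1 M + (-1 : ℂ) • w1)) atTop (𝓝 0) →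
  Tendsto (fun M => T24.nrm (f2 M + (-1 : ℂ) • w2)) atTop (𝓝 0) →
  Tendsto (fun M => pair3 a b (f0 M) (f1 M) (f2 M)) atTop (𝓝 (pair3 a b w0 w1 w2))

/-- the limit vector -/
noncomputable def psi1 (N : ℕ) : St →₀ ℂ := Psi (List.replicate N 1 ++ [0])

/-- the output of part (C) -/
def S_final : Prop := ∀ (a b : ℕ), Odd a → Odd b →
  ((perc.real (SlitCross a b) : ℝ) : ℂ) =
    pair3 a b (psi1 (a+b+1)) (psi1 a) (psi1 b) /
      (mass (psi1 (a+b+1)) * mass (psi1 a) * mass (psi1 b))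

end Pool.Agent.H980R3.Slit
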